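import Pool.Agent.H824.DaffF

/-!
# The odd-dimensional quadrics in characteristic two are `D`-affine

Over an algebraically closed field `k` of characteristic `2`, let `V` be the smooth quadric
`z² + x₀y₀ + … + x_m y_m = 0` of dimension `2m + 1`. The higher cohomology of its sheaf of
differential operators `D_V = ⋃ₑ End_{O^(2^e)}(O)` vanishes, in the form of the Čech cohomology for
the covering of `V` by the affine open sets where a coordinate `x_i` or `y_i` does not vanish.

The reason: the Frobenius morphism of `V` factors through the projection `V → ℙ^(2m+1)` that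
forgets `z`, hence `D_V` is also the union of the sheaves of endomorphisms of `O_V` that are linear
over the `2^e`-th powers of the functions on `ℙ^(2m+1)`; these are direct sums of the line bundles
`O(a)`, `|a| ≤ 2m + 1`, on `ℙ^(2m+1)` (twisted by Frobenius), which have no higher cohomology.
-/

namespace Pool.Agent.Results.MP_71be78_ag.CharTwo

open Pool.Agent.H824

theorem result (k : Type) [Field k] [IsAlgClosed k] [CharP k 2] (m : ℕ) :
    ∃ V : ProjVariety k (QVar m),
      V.ideal = Ideal.span {quadForm k m} ∧ V.dim = 2 * m + 1 ∧ V.IsSmooth ∧
      (∀ z ∈ V.points, ∃ a, z (xyIdx m a) ≠ 0) ∧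
      ∀ i, V.DiffVanishing (xyIdx m) 2 i :=
  daff_main k m

end Pool.Agent.Results.MP_71be78_ag.CharTwo
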